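import Mathlib
import Pool.Agent.Results.MP_b71732_co.RegularCritical
import Pool.Agent.W2helper87.CIS

/-!
# Vertex-transitive CIS graphs with clique number four and large chromatic number
-/

set_option autoImplicit false

namespace Pool.Agent.Results.MP_3eb3c1_co.UnboundedChromatic

/-- The automorphism group acts transitively on the vertices. -/
def IsVertexTransitive {V : Type} (Γ : SimpleGraph V) : Prop :=
  ∀ u v : V, ∃ φ : Γ ≃g Γ, φ u = v

/-- Every inclusion-maximal clique meets every inclusion-maximal stable set. -/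
def IsCIS {V : Type} (Γ : SimpleGraph V) : Prop :=
  ∀ C S : Set V, Maximal Γ.IsClique C → Maximal Γ.IsIndepSet S → (C ∩ S).Nonempty

/-- the Kneser graph on the `(m+1)`-subsets of `ZMod (3m+2)` -/
def Kn (m : ℕ) : SimpleGraph {S : Finset (ZMod (3 * m + 2)) // S.card = m + 1} where
  Adj S T := Disjoint S.1 T.1
  symm := ⟨fun _ _ h => Disjoint.symm h⟩
  loopless := ⟨fun S h => by
    have h1 := S.2
    have h2 : S.1 = ∅ := (Finset.disjoint_self_iff_empty _).1 h
    rw [h2, Finset.card_empty] at h1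
    omega⟩

lemma Kn_triangle (m : ℕ) (a b c) (h1 : (Kn m).Adj a b) (h2 : (Kn m).Adj a c) :
    ¬ (Kn m).Adj b c := by
  intro h3
  have h1' : Disjoint a.1 b.1 := h1
  have h2' : Disjoint a.1 c.1 := h2
  have h3' : Disjoint b.1 c.1 := h3
  have h4 : Disjoint (a.1 ∪ b.1) c.1 := Finset.disjoint_union_left.2 ⟨h2', h3'⟩
  have h5 := Finset.card_le_univ ((a.1 ∪ b.1) ∪ c.1)
  rw [Finset.card_union_of_disjoint h4, Finset.card_union_of_disjoint h1', a.2, b.2, c.2,
    ZMod.card] at h5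
  omega

lemma Kn_edge (m : ℕ) : ∃ a b, (Kn m).Adj a b := by
  have h : 2 * (m + 1) ≤ (Finset.univ : Finset (ZMod (3 * m + 2))).card := by
    rw [Finset.card_univ, ZMod.card]
    omega
  obtain ⟨A, -, hA⟩ := Finset.exists_subset_card_eq h
  obtain ⟨S, hS, hSc⟩ := Finset.exists_subset_card_eq (show m + 1 ≤ A.card by omega)
  refine ⟨⟨S, hSc⟩, ⟨A \ S, ?_⟩, ?_⟩
  · rw [Finset.card_sdiff_of_subset hS]
    omega
  · exact Finset.disjoint_sdiff

/-- a permutation of the ground set acts on the Kneser graph -/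
def act (m : ℕ) (π : Equiv.Perm (ZMod (3 * m + 2))) : Kn m ≃g Kn m where
  toFun S := ⟨S.1.map π.toEmbedding, by rw [Finset.card_map]; exact S.2⟩
  invFun S := ⟨S.1.map π.symm.toEmbedding, by rw [Finset.card_map]; exact S.2⟩
  left_inv S := by
    apply Subtype.ext
    ext x
    simp
  right_inv S := by
    apply Subtype.ext
    ext x
    simp
  map_rel_iff' := by
    intro a b
    exact Finset.disjoint_map _

lemma Kn_transitive (m : ℕ) (a b c d) (h1 : (Kn m).Adj a b) (h2 : (Kn m).Adj c d) :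
    ∃ σ : Kn m ≃g Kn m, σ a = c ∧ σ b = d := by
  classical
  have h1' : Disjoint a.1 b.1 := h1
  have h2' : Disjoint c.1 d.1 := h2
  let e1 : {x // x ∈ a.1} ≃ {x // x ∈ c.1} := Finset.equivOfCardEq (a.2.trans c.2.symm)
  let e2 : {x // x ∈ b.1} ≃ {x // x ∈ d.1} := Finset.equivOfCardEq (b.2.trans d.2.symm)
  let e : {x // x ∈ a.1 ∪ b.1} ≃ {x // x ∈ c.1 ∪ d.1} :=
    (Equiv.Finset.union a.1 b.1 h1').symm.trans
      ((Equiv.sumCongr e1 e2).trans (Equiv.Finset.union c.1 d.1 h2'))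
  let π : Equiv.Perm (ZMod (3 * m + 2)) := e.extendSubtype
  have ha : ∀ x ∈ a.1, π x ∈ c.1 := by
    intro x hx
    have hx' : x ∈ a.1 ∪ b.1 := Finset.mem_union_left _ hx
    have : π x = (e ⟨x, hx'⟩ : ZMod (3 * m + 2)) := Equiv.extendSubtype_apply_of_mem e x hx'
    rw [this]
    have h3 : (Equiv.Finset.union a.1 b.1 h1').symm ⟨x, hx'⟩ = Sum.inl ⟨x, hx⟩ := by
      rw [Equiv.symm_apply_eq]
      rfl
    simp only [e, Equiv.trans_apply]
    rw [h3]
    exact (e1 ⟨x, hx⟩).2
  have hb : ∀ x ∈ b.1, π x ∈ d.1 := by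
    intro x hx
    have hx' : x ∈ a.1 ∪ b.1 := Finset.mem_union_right _ hx
    have : π x = (e ⟨x, hx'⟩ : ZMod (3 * m + 2)) := Equiv.extendSubtype_apply_of_mem e x hx'
    rw [this]
    have h3 : (Equiv.Finset.union a.1 b.1 h1').symm ⟨x, hx'⟩ = Sum.inr ⟨x, hx⟩ := by
      rw [Equiv.symm_apply_eq]
      rfl
    simp only [e, Equiv.trans_apply]
    rw [h3]
    exact (e2 ⟨x, hx⟩).2
  refine ⟨act m π, ?_, ?_⟩
  · apply Subtype.ext
    show a.1.map π.toEmbedding = c.1
    apply Finset.eq_of_subset_of_card_le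
    · intro y hy
      obtain ⟨x, hx, rfl⟩ := Finset.mem_map.1 hy
      exact ha x hx
    · rw [Finset.card_map, a.2, c.2]
  · apply Subtype.ext
    show b.1.map π.toEmbedding = d.1
    apply Finset.eq_of_subset_of_card_le
    · intro y hy
      obtain ⟨x, hx, rfl⟩ := Finset.mem_map.1 hy
      exact hb x hx
    · rw [Finset.card_map, b.2, d.2]

/-- Lovász's theorem for these parameters, from Schrijver's theorem -/
lemma Kn_not_colorable (m : ℕ) : ¬ (Kn m).Colorable (m + 1) := by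
  rintro ⟨C⟩
  have h := Pool.Agent.Results.MP_b71732_co.RegularCritical.not_colorable (3 * m + 2) (m + 1)
    (by omega) (by omega)
  rw [show 3 * m + 2 - 2 * (m + 1) + 1 = m + 1 by omega] at h
  refine h ⟨SimpleGraph.Coloring.mk (fun S => C ⟨S.1, S.2.1⟩) ?_⟩
  intro S T hST
  exact C.valid (show (Kn m).Adj ⟨S.1, S.2.1⟩ ⟨T.1, T.2.1⟩ from hST.2)

/-- For every `N` there is a finite vertex-transitive CIS graph with clique number `4` and chromatic
number greater than `N`. -/
theorem result : ∀ N : ℕ, ∃ (V : Type) (_ : Fintype V) (Γ : SimpleGraph V),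
    IsVertexTransitive Γ ∧ IsCIS Γ ∧ Γ.cliqueNum = 4 ∧ (N : ℕ∞) < Γ.chromaticNumber := by
  classical
  intro N
  have hY := Kn_triangle (2 ^ N)
  have hne := Kn_edge (2 ^ N)
  refine ⟨(W2helper87.CIS.B (Kn (2 ^ N))).edgeSet, Fintype.ofFinite _,
    W2helper87.CIS.G (Kn (2 ^ N)), ?_, ?_, ?_, ?_⟩
  · exact W2helper87.CIS.transitive _ (Kn_transitive _)
  · intro C S hC hS
    obtain ⟨x, hx⟩ := W2helper87.CIS.stable_iff hS
    obtain ⟨p, hp, hpx⟩ := W2helper87.CIS.clique_meets hY hne hC x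
    exact ⟨p, hp, (hx p).2 hpx⟩
  · exact W2helper87.CIS.cliqueNum_eq hY hne
  · rw [← not_le, SimpleGraph.chromaticNumber_le_iff_colorable]
    intro h
    exact Kn_not_colorable (2 ^ N) ((W2helper87.CIS.colorable h).mono (by omega))

end Pool.Agent.Results.MP_3eb3c1_co.UnboundedChromatic
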